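import Mathlib

set_option autoImplicit false

/-! The binary Goldbach problem: definitions. -/

namespace Pool.Agent.H560R3.GB

open Finset

/-- The twin prime constant `C₂ = ∏_{p > 2} (1 - 1 / (p - 1) ^ 2)`: the infimum (the limit) of the
decreasing partial products over the primes `3 ≤ p ≤ z`. -/
noncomputable def C₂ : ℝ := ⨅ z : ℕ, ∏ p ∈ (Icc 3 z).filter Nat.Prime, (1 - 1 / ((p : ℝ) - 1) ^ 2)

/-- The singular series `2 C₂ ∏_{p ∣ n, p > 2} (p - 1) / (p - 2)`. -/
noncomputable def sing (n : ℕ) : ℝ :=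
  2 * C₂ * ∏ p ∈ n.primeFactors.filter (fun p => 2 < p), ((p : ℝ) - 1) / ((p : ℝ) - 2)

/-- The number of ordered representations of `n` as a sum of two primes. -/
def g (n : ℕ) : ℕ := ((antidiagonal n).filter (fun q : ℕ × ℕ => q.1.Prime ∧ q.2.Prime)).card

/-- The prediction of Hardy and Littlewood for `g n`. -/
noncomputable def HL (n : ℕ) : ℝ := sing n * (n / Real.log n ^ 2)

open Classical in
/-- The number of `m ∈ {1, ..., x}` for which `|g (s m) - HL (s m)| ≤ ε HL (s m)` is false. -/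
noncomputable def exceptions (ε : ℝ) (x : ℕ) (s : ℕ → ℕ) : ℕ :=
  ((Icc 1 x).filter (fun m => ¬ |(g (s m) : ℝ) - HL (s m)| ≤ ε * HL (s m))).card

/-- The additive energy of order `h` of the family `s 1, ..., s x`: the number of solutions of
`s (v 1) + ... + s (v h) = s (w 1) + ... + s (w h)` with all `v i`, `w i` in `{1, ..., x}`. -/
def energy (h x : ℕ) (s : ℕ → ℕ) : ℕ :=
  (((Fintype.piFinset fun _ : Fin h => Icc 1 x) ×ˢ (Fintype.piFinset fun _ : Fin h => Icc 1 x)).filter
    (fun q => ∑ i, s (q.1 i) = ∑ i, s (q.2 i))).card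

/-- The number of representations of `t` as `s (v 1) + ... + s (v h)` with all `v i` in
`{1, ..., x}`. -/
def reps (h x : ℕ) (s : ℕ → ℕ) (t : ℕ) : ℕ :=
  ((Fintype.piFinset fun _ : Fin h => Icc 1 x).filter (fun v => ∑ i, s (v i) = t)).card

end Pool.Agent.H560R3.GB
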